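import Mathlib.Topology.Sheaves.Presheaf
import Mathlib.Data.Int.Star
import Mathlib.Algebra.Order.Ring.Star
import Mathlib.RingTheory.Polynomial.GaussLemma
import Mathlib.Analysis.SpecialFunctions.Pow.Real
import Mathlib.Algebra.Order.Star.Real
import Mathlib.Algebra.Polynomial.SpecificDegree
import Mathlib.Combinatorics.SimpleGraph.Basic
import Mathlib.NumberTheory.DiophantineApproximation.Basic
import Mathlib.RingTheory.Polynomial.SmallDegreeVieta

-- ======== part 0: formerly Pool.Agent.MP_03368a_nt.Step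
section MrgPart0

/-!
One step of the construction: from a fraction `p/q` to a quadratic number close to it and to a
far convergent of that quadratic number.
-/

namespace Pool.Agent.MP_03368a_nt
open Polynomial

lemma exists_abc (p q B : ℤ) (hq : 2 ≤ q) (hc : IsCoprime p q) :
    ∃ a b c : ℤ, 0 < a ∧ a < q ∧ B ≤ b ∧ b < B + q ∧ a * p ^ 2 + b * p * q + c * q ^ 2 = 1 := by
  obtain ⟨a0, c0, h⟩ := (hc.pow (m := 2) (n := 2))
  have hq0 : q ≠ 0 := by omega
  have e1 := Int.emod_add_mul_ediv a0 q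
  have e2 := Int.emod_add_mul_ediv (p * (a0 / q) - B) q
  have key : (a0 % q) * p ^ 2 + (B + (p * (a0 / q) - B) % q) * p * q +
      (c0 + p * ((p * (a0 / q) - B) / q)) * q ^ 2 = 1 := by
    have f1 : a0 % q = a0 - q * (a0 / q) := by linarith
    have f2 : (p * (a0 / q) - B) % q = p * (a0 / q) - B - q * ((p * (a0 / q) - B) / q) := by
      linarith
    rw [f1, f2]
    linear_combination h
  refine ⟨a0 % q, B + (p * (a0 / q) - B) % q, c0 + p * ((p * (a0 / q) - B) / q), ?_,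
    Int.emod_lt_of_pos _ (by omega), ?_, ?_, key⟩
  · rcases (Int.emod_nonneg a0 hq0).lt_or_eq with h1 | h1
    · exact h1
    · exfalso
      rw [← h1] at key
      have : q ∣ 1 := ⟨(B + (p * (a0 / q) - B) % q) * p +
        (c0 + p * ((p * (a0 / q) - B) / q)) * q, by linear_combination -key⟩
      have := Int.le_of_dvd one_pos this
      omega
  · have := Int.emod_nonneg (p * (a0 / q) - B) hq0
    omega
  · have := Int.emod_lt_of_pos (p * (a0 / q) - B) (show 0 < q by omega)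
    omega

lemma irred_quad (a b c x y z : ℤ) (ha : a ≠ 0) (h : a * x + b * y + c * z = 1)
    (hr : ∀ ρ : ℚ, (a : ℚ) * ρ ^ 2 + b * ρ + c ≠ 0) :
    Irreducible (C a * X ^ 2 + C b * X + C c : ℤ[X]) := by
  have hp : (C a * X ^ 2 + C b * X + C c : ℤ[X]).IsPrimitive := by
    rw [isPrimitive_iff_isUnit_of_C_dvd]
    intro r hr
    rw [C_dvd_iff_dvd_coeff] at hr
    have h2 := hr 2
    have h1 := hr 1
    have h0 := hr 0
    simp only [coeff_add, coeff_C_mul, coeff_X_pow, coeff_X, coeff_C] at h0 h1 h2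
    norm_num at h0 h1 h2
    exact isUnit_of_dvd_one (h ▸ dvd_add (dvd_add (h2.mul_right _) (h1.mul_right _))
      (h0.mul_right _))
  rw [IsPrimitive.Int.irreducible_iff_irreducible_map_cast hp]
  have e : (C a * X ^ 2 + C b * X + C c : ℤ[X]).map (Int.castRingHom ℚ) =
      C (a : ℚ) * X ^ 2 + C (b : ℚ) * X + C (c : ℚ) := by
    simp
  rw [e]
  apply irreducible_of_degree_le_three_of_not_isRoot
  · rw [natDegree_quadratic (by exact_mod_cast ha)]
    simp
  · intro ρ hρ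
    apply hr ρ
    simpa using hρ

lemma exists_rat_large {α : ℝ} (hα : Irrational α) (D : ℝ) :
    ∃ r : ℚ, D ≤ r.den ∧ |α - r| < 1 / (r.den : ℝ) ^ 2 := by
  by_contra hcon
  push Not at hcon
  apply Real.infinite_rat_abs_sub_lt_one_div_den_sq_of_irrational hα
  obtain ⟨N, hN⟩ := exists_nat_ge D
  obtain ⟨K, hK⟩ := exists_nat_ge ((|α| + 1) * N)
  have hfin : (Set.Icc (-(K : ℤ)) K ×ˢ Set.Icc (0 : ℕ) N).Finite :=
    (Set.finite_Icc _ _).prod (Set.finite_Icc _ _)
  refine Set.Finite.of_finite_image (f := fun r : ℚ => (r.num, r.den)) (hfin.subset ?_) ?_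
  · rintro _ ⟨r, hr, rfl⟩
    simp only [Set.mem_ofPred_eq] at hr
    have hd : (r.den : ℝ) ≤ N := by
      by_contra h
      exact absurd hr (not_lt.2 (hcon r (by linarith)))
    have hd1 : (1 : ℝ) ≤ r.den := by exact_mod_cast r.pos
    have h1 : |α - r| < 1 := hr.trans_le (by
      rw [div_le_one (by positivity)]; nlinarith)
    have h2 : |(r : ℝ)| ≤ |α| + 1 := by
      have := abs_sub_abs_le_abs_sub (r : ℝ) α
      rw [abs_sub_comm] at this
      linarith
    have h3 : (r.num : ℝ) = r * r.den := by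
      have := Rat.mul_den_eq_num r
      exact_mod_cast this.symm
    have h4 : |(r.num : ℝ)| ≤ K := by
      rw [h3, abs_mul, abs_of_nonneg (show (0 : ℝ) ≤ r.den by linarith)]
      refine le_trans ?_ hK
      gcongr
    have h5 : |r.num| ≤ K := by exact_mod_cast h4
    exact ⟨abs_le.1 h5, Nat.zero_le _, by exact_mod_cast hd⟩
  · intro r _ s _ h
    simp only [Prod.mk.injEq] at h
    exact Rat.ext h.1 h.2

lemma step (p q B : ℤ) (hp : 0 < p) (hpq : p ≤ q) (hq : 2 ≤ q) (hc : IsCoprime p q) (hB : q ≤ B)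
    (D : ℝ) : ∃ (a b c : ℤ) (α : ℝ) (p' q' : ℤ),
      Irreducible (C a * X ^ 2 + C b * X + C c : ℤ[X]) ∧ a * α ^ 2 + b * α + c = 0 ∧
      |a| ≤ 6 * B ∧ |b| ≤ 6 * B ∧ |c| ≤ 6 * B ∧
      1 / (6 * B * q ^ 2 : ℝ) ≤ p / q - α ∧ p / q - α ≤ 2 / (B * q ^ 2 : ℝ) ∧
      0 < p' ∧ p' ≤ q' ∧ IsCoprime p' q' ∧ D ≤ q' ∧ |α - p' / q'| ≤ 1 / (q' : ℝ) ^ 2 := by
  obtain ⟨a, b, c, ha0, haq, hb1, hb2, h⟩ := exists_abc p q B hq hc
  set M : ℤ := 2 * a * p + b * q with hM
  set Δ : ℤ := b ^ 2 - 4 * a * c with hΔ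
  have hid : Δ * q ^ 2 = M ^ 2 - 4 * a := by
    rw [hΔ, hM]; linear_combination (-4 * a) * h
  have hM1 : B * q ≤ M := by nlinarith [mul_pos ha0 hp]
  have hM2 : M ≤ 6 * B * q := by nlinarith
  have hMa : 2 * a + 1 ≤ M := by nlinarith
  have hns : ¬ IsSquare Δ := by
    rintro ⟨d, hd⟩
    have e : (|d| * q) ^ 2 = M ^ 2 - 4 * a := by
      rw [← hid, hd, mul_pow, sq_abs]; ring
    have hpos : 0 ≤ |d| * q := by positivity
    have h1 : |d| * q < M := by nlinarith
    have h2 : |d| * q ≤ M - 1 := by omega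
    nlinarith
  have hr : ∀ ρ : ℚ, (a : ℚ) * ρ ^ 2 + b * ρ + c ≠ 0 := by
    intro ρ hρ
    apply hns
    rw [← Rat.isSquare_intCast_iff]
    refine ⟨2 * a * ρ + b, ?_⟩
    rw [hΔ]; push_cast
    linear_combination (-4 * a) * hρ
  have hΔ0 : 0 ≤ Δ := by
    have : 0 ≤ Δ * q ^ 2 := by rw [hid]; nlinarith
    exact nonneg_of_mul_nonneg_left this (by positivity)
  have hcb : |c| ≤ 6 * B := by
    have hq2 : 0 < q ^ 2 := by positivity
    have e : c * q ^ 2 = 1 - a * p ^ 2 - b * p * q := by linarith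
    have l1 : a * p ^ 2 ≤ B * q ^ 2 := by
      have : p ^ 2 ≤ q ^ 2 := by gcongr
      exact mul_le_mul (by omega) this (by positivity) (by omega)
    have l2 : b * p * q ≤ 2 * B * q ^ 2 := by
      have : b * p ≤ 2 * B * q := by gcongr <;> omega
      nlinarith
    have l3 : 0 ≤ a * p ^ 2 := by positivity
    have l4 : 0 ≤ b * p * q := by
      have : 0 ≤ b := by omega
      positivity
    rw [abs_le]
    constructor <;> nlinarith
  have qR : (2 : ℝ) ≤ q := by exact_mod_cast hq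
  have aR : (0 : ℝ) < a := by exact_mod_cast ha0
  have pR : (1 : ℝ) ≤ p := by exact_mod_cast hp
  have pqR : (p : ℝ) ≤ q := by exact_mod_cast hpq
  have BR : (q : ℝ) ≤ B := by exact_mod_cast hB
  have M1R : (B : ℝ) * q ≤ M := by exact_mod_cast hM1
  have M2R : (M : ℝ) ≤ 6 * B * q := by exact_mod_cast hM2
  have hs : √(Δ : ℝ) ^ 2 = Δ := Real.sq_sqrt (by exact_mod_cast hΔ0)
  have hs0 : 0 ≤ √(Δ : ℝ) := Real.sqrt_nonneg _
  set s := √(Δ : ℝ) with hsdef
  have hidR : s ^ 2 * q ^ 2 = M ^ 2 - 4 * a := by rw [hs]; exact_mod_cast hid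
  have MR : (M : ℝ) = 2 * a * p + b * q := by rw [hM]; push_cast; ring
  have M0 : (4 : ℝ) ≤ M := by nlinarith
  have hsM : s * q ≤ M := by
    by_contra hcon
    push Not at hcon
    nlinarith
  have hsq0 : 0 ≤ s * q := by positivity
  set α : ℝ := (-b + s) / (2 * a) with hα
  have hroot : a * α ^ 2 + b * α + c = 0 := by
    have : (Δ : ℝ) = b ^ 2 - 4 * a * c := by rw [hΔ]; push_cast; ring
    rw [hα]; field_simp
    linear_combination hs + this
  have hdiff : p / q - α = 2 / (q * (M + s * q)) := by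
    have e1 : p / q - α = (M - s * q) / (2 * a * q) := by
      rw [hα, MR]; field_simp; ring
    rw [e1, div_eq_div_iff (by positivity) (by positivity)]
    linear_combination (-q : ℝ) * hidR
  have hlow : 1 / (6 * B * q ^ 2 : ℝ) ≤ p / q - α := by
    rw [hdiff, div_le_div_iff₀ (by nlinarith) (by positivity)]
    nlinarith
  have hup : p / q - α ≤ 2 / (B * q ^ 2 : ℝ) := by
    rw [hdiff]
    apply div_le_div_of_nonneg_left (by norm_num) (by nlinarith)
    nlinarith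
  have hirr : Irrational α := by
    rintro ⟨ρ, hρ⟩
    apply hr ρ
    rw [← hρ] at hroot
    exact_mod_cast hroot
  have hα1 : α < 1 := by
    have h1 : (p : ℝ) / q ≤ 1 := by rw [div_le_one (by linarith)]; exact pqR
    have h2 : 0 < 1 / (6 * B * q ^ 2 : ℝ) := by
      have : (0 : ℝ) < B := by linarith
      positivity
    linarith
  have hα0 : 0 < α := by
    have h1 : 2 / (q * (M + s * q)) < (p : ℝ) / q := by
      rw [div_lt_div_iff₀ (by positivity) (by positivity)]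
      nlinarith [mul_nonneg (sub_nonneg.2 pR) (show (0 : ℝ) ≤ q * (M + s * q) by positivity)]
    linarith
  obtain ⟨r, hr1, hr2⟩ := exists_rat_large hirr (max D (max (1 / α) (1 / (1 - α))))
  have hd1 : (1 : ℝ) ≤ r.den := by exact_mod_cast r.pos
  have hd2 : 1 / (r.den : ℝ) ^ 2 ≤ 1 / r.den := by
    apply one_div_le_one_div_of_le (by positivity); nlinarith
  have hd3 : 1 / (r.den : ℝ) ≤ α := by
    rw [one_div_le (by positivity) hα0]
    exact ((le_max_left _ _).trans (le_max_right _ _)).trans hr1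
  have hd4 : 1 / (r.den : ℝ) ≤ 1 - α := by
    rw [one_div_le (by positivity) (by linarith)]
    exact ((le_max_right _ _).trans (le_max_right _ _)).trans hr1
  have hr3 := abs_lt.1 hr2
  have r0 : (0 : ℝ) < r := by linarith
  have r1 : (r : ℝ) ≤ 1 := by linarith
  have hrd : (r : ℝ) = (r.num : ℝ) / ((r.den : ℤ) : ℝ) := by
    push_cast; exact Rat.cast_def r
  refine ⟨a, b, c, α, r.num, r.den, irred_quad a b c (p ^ 2) (p * q) (q ^ 2) ha0.ne'
    (by linear_combination h) hr, hroot, ?_, ?_, hcb, hlow, hup, ?_, ?_, ?_, ?_, ?_⟩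
  · rw [abs_of_pos ha0]; omega
  · rw [abs_of_pos (by omega)]; omega
  · exact Rat.num_pos.2 (by exact_mod_cast r0)
  · rw [hrd, div_le_one (by exact_mod_cast r.pos)] at r1
    exact_mod_cast r1
  · exact Int.isCoprime_iff_gcd_eq_one.2 r.reduced
  · exact_mod_cast (le_max_left _ _).trans hr1
  · rw [← hrd, Int.cast_natCast]
    exact hr2.le

/-- Liouville type lower bound at a fraction. -/
lemma gap (p q : ℤ) (hp : 0 < p) (hpq : p ≤ q) (hc : IsCoprime p q) (a b c h : ℤ) (β : ℝ)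
    (hne : a ≠ 0 ∨ b ≠ 0 ∨ c ≠ 0) (ha : |a| ≤ h) (hb : |b| ≤ h)
    (hβ : a * β ^ 2 + b * β + c = 0) :
    (β = p / q ∧ q ≤ h) ∨ 1 / (4 * (q : ℝ) ^ 2) ≤ h * |p / q - β| := by
  have hq : 0 < q := by omega
  have qR : (1 : ℝ) ≤ q := by exact_mod_cast hq
  have hsmall : 1 / (4 * (q : ℝ) ^ 2) ≤ 1 := by
    rw [div_le_one (by positivity)]; nlinarith
  by_cases h0 : a * p ^ 2 + b * p * q + c * q ^ 2 = 0
  · obtain ⟨u, hu⟩ : q ∣ a := by
      have : q ∣ a * p ^ 2 := ⟨-(b * p) - c * q, by linear_combination h0⟩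
      exact (hc.symm.pow_right (n := 2)).dvd_of_dvd_mul_right this
    obtain ⟨v, hv⟩ : p ∣ c := by
      have : p ∣ c * q ^ 2 := ⟨-(a * p) - b * q, by linear_combination h0⟩
      exact (hc.pow_right (n := 2)).dvd_of_dvd_mul_right this
    have hb' : b = -(v * q) - u * p := by
      have : p * q * (b + v * q + u * p) = 0 := by
        rw [hu, hv] at h0; linear_combination h0
      have := (mul_eq_zero.1 this).resolve_left (by positivity)
      linarith
    have hfac : ((q : ℝ) * β - p) * (u * β - v) = 0 := by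
      rw [hu, hv, hb'] at hβ; push_cast at hβ; linear_combination hβ
    by_cases hβx : β = p / q
    · left
      refine ⟨hβx, ?_⟩
      by_cases hu0 : u = 0
      · have hv0 : v ≠ 0 := by
          rintro rfl
          simp [hu, hv, hb', hu0] at hne
        have : 1 ≤ |v| := Int.one_le_abs hv0
        rw [hb', hu0, zero_mul, sub_zero, abs_neg, abs_mul, abs_of_pos hq] at hb
        nlinarith
      · have : 1 ≤ |u| := Int.one_le_abs hu0
        rw [hu, abs_mul, abs_of_pos hq] at ha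
        nlinarith
    · right
      have h1 : (q : ℝ) * β - p ≠ 0 := by
        intro h1; apply hβx; field_simp; linarith
      have h2 : (u : ℝ) * β - v = 0 := (mul_eq_zero.1 hfac).resolve_left h1
      have hu0 : u ≠ 0 := by
        rintro rfl
        have : v = 0 := by simpa using h2
        simp [hu, hv, hb', this] at hne
      have h3 : u * p - v * q ≠ 0 := by
        intro h3
        have h3' : (u : ℝ) * p - v * q = 0 := by exact_mod_cast h3
        have : (u : ℝ) * (q * β - p) = 0 := by linear_combination (q : ℝ) * h2 - h3'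
        exact h1 ((mul_eq_zero.1 this).resolve_left (by exact_mod_cast hu0))
      have h4 : (1 : ℝ) ≤ |(u : ℝ) * p - v * q| := by exact_mod_cast Int.one_le_abs h3
      have h5 : (u : ℝ) * p - v * q = (a : ℝ) * (p / q - β) := by
        rw [hu]; push_cast; field_simp; linear_combination (q : ℝ) * h2
      have h6 : |(a : ℝ)| ≤ h := by exact_mod_cast ha
      rw [h5, abs_mul] at h4
      calc _ ≤ (1 : ℝ) := hsmall
        _ ≤ _ := h4
        _ ≤ _ := by gcongr
  · right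
    have h4 : (1 : ℝ) ≤ |(a : ℝ) * p ^ 2 + b * p * q + c * q ^ 2| := by
      exact_mod_cast Int.one_le_abs h0
    have h5 : (a : ℝ) * p ^ 2 + b * p * q + c * q ^ 2 =
        q ^ 2 * ((p / q - β) * (a * (p / q + β) + b)) := by
      field_simp; linear_combination (q : ℝ) ^ 2 * hβ
    have h6 : |(a : ℝ)| ≤ h := by exact_mod_cast ha
    have h7 : |(b : ℝ)| ≤ h := by exact_mod_cast hb
    have h1 : (1 : ℝ) ≤ h := by
      by_contra hh
      have : h < 1 := by exact_mod_cast not_le.1 hh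
      have a0 : a = 0 := by have := abs_nonneg a; exact abs_eq_zero.1 (by omega)
      have b0 : b = 0 := by have := abs_nonneg b; exact abs_eq_zero.1 (by omega)
      have c0 : c = 0 := by simpa [a0, b0] using hβ
      simp [a0, b0, c0] at hne
    have x0 : (0 : ℝ) ≤ p / q := by positivity
    have x1 : (p : ℝ) / q ≤ 1 := by
      rw [div_le_one (by positivity)]; exact_mod_cast hpq
    by_cases hfar : 1 ≤ |(p : ℝ) / q - β|
    · nlinarith
    · have hf := abs_lt.1 (not_le.1 hfar)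
      have h8 : |(p : ℝ) / q + β| ≤ 3 := by rw [abs_le]; constructor <;> linarith
      have h9 : |(a : ℝ) * (p / q + β) + b| ≤ 4 * h := by
        refine (abs_add_le _ _).trans ?_
        rw [abs_mul]
        have : |(a : ℝ)| * |(p : ℝ) / q + β| ≤ h * 3 := by gcongr
        linarith
      rw [h5, abs_mul, abs_mul, abs_of_nonneg (show (0 : ℝ) ≤ (q : ℝ) ^ 2 by positivity)] at h4
      rw [div_le_iff₀ (by positivity)]
      have : (q : ℝ) ^ 2 * (|(p : ℝ) / q - β| * |(a : ℝ) * (p / q + β) + b|) ≤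
          q ^ 2 * (|(p : ℝ) / q - β| * (4 * h)) := by gcongr
      nlinarith

end Pool.Agent.MP_03368a_nt

end MrgPart0

-- ======== part 1: formerly Pool.Agent.MP_03368a_nt.Seq
section MrgPart1

/-!
The recursive construction and the limit point.
-/

namespace Pool.Agent.MP_03368a_nt
open Polynomial

lemma exists_B (τ : ℝ) (h0 : 0 < τ) (h1 : τ ≤ 1) (q : ℤ) (hq : 2 ≤ q) :
    ∃ B : ℤ, q ≤ B ∧ (q : ℝ) ≤ (B : ℝ) ^ τ ∧ (B : ℝ) ^ τ ≤ 2 * q := by
  have qR : (2 : ℝ) ≤ q := by exact_mod_cast hq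
  set y : ℝ := (q : ℝ) ^ τ⁻¹ with hy
  have hyq : (q : ℝ) ≤ y := by
    have := Real.rpow_le_rpow_of_exponent_le (show (1 : ℝ) ≤ q by linarith)
      ((one_le_inv₀ h0).2 h1)
    rwa [Real.rpow_one] at this
  have hyτ : y ^ τ = q := Real.rpow_inv_rpow (by linarith) h0.ne'
  have h2 := Int.le_ceil y
  have h3 := Int.ceil_lt_add_one y
  refine ⟨⌈y⌉, by exact_mod_cast hyq.trans h2, ?_, ?_⟩
  · rw [← hyτ]
    exact Real.rpow_le_rpow (by linarith) h2 h0.le
  · have : ((⌈y⌉ : ℤ) : ℝ) ^ τ ≤ (2 * y) ^ τ :=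
      Real.rpow_le_rpow (by linarith) (by linarith) h0.le
    rw [Real.mul_rpow (by norm_num) (by linarith), hyτ] at this
    have h4 : (2 : ℝ) ^ τ ≤ 2 := by
      have := Real.rpow_le_rpow_of_exponent_le (show (1 : ℝ) ≤ 2 by norm_num) h1
      rwa [Real.rpow_one] at this
    nlinarith

lemma exists_seq (τ : ℕ → ℝ) (h0 : ∀ k, 0 < τ k) (h1 : ∀ k, τ k ≤ 1) :
    ∃ (p q B a b c : ℕ → ℤ) (α : ℕ → ℝ), ∀ k,
      (0 < p k ∧ p k ≤ q k ∧ 2 ≤ q k ∧ IsCoprime (p k) (q k)) ∧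
      (q k ≤ B k ∧ (q k : ℝ) ≤ (B k : ℝ) ^ τ k ∧ (B k : ℝ) ^ τ k ≤ 2 * q k) ∧
      (Irreducible (C (a k) * X ^ 2 + C (b k) * X + C (c k) : ℤ[X]) ∧
        a k * α k ^ 2 + b k * α k + c k = 0 ∧
        |a k| ≤ 6 * B k ∧ |b k| ≤ 6 * B k ∧ |c k| ≤ 6 * B k) ∧
      1 / (6 * B k * q k ^ 2 : ℝ) ≤ p k / q k - α k ∧
      p k / q k - α k ≤ 2 / (B k * q k ^ 2 : ℝ) ∧
      (18 * B k : ℝ) ^ (k + 2) ≤ q (k + 1) ∧
      |α k - p (k + 1) / q (k + 1)| ≤ 1 / (q (k + 1) : ℝ) ^ 2 := by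
  let S := {s : ℤ × ℤ // 0 < s.1 ∧ s.1 ≤ s.2 ∧ 2 ≤ s.2 ∧ IsCoprime s.1 s.2}
  have key : ∀ (k : ℕ) (s : S), ∃ (B a b c : ℤ) (α : ℝ) (s' : S),
      (s.1.2 ≤ B ∧ (s.1.2 : ℝ) ≤ (B : ℝ) ^ τ k ∧ (B : ℝ) ^ τ k ≤ 2 * s.1.2) ∧
      (Irreducible (C a * X ^ 2 + C b * X + C c : ℤ[X]) ∧
        a * α ^ 2 + b * α + c = 0 ∧ |a| ≤ 6 * B ∧ |b| ≤ 6 * B ∧ |c| ≤ 6 * B) ∧
      1 / (6 * B * s.1.2 ^ 2 : ℝ) ≤ s.1.1 / s.1.2 - α ∧
      s.1.1 / s.1.2 - α ≤ 2 / (B * s.1.2 ^ 2 : ℝ) ∧
      (18 * B : ℝ) ^ (k + 2) ≤ s'.1.2 ∧ |α - s'.1.1 / s'.1.2| ≤ 1 / (s'.1.2 : ℝ) ^ 2 := by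
    rintro k ⟨⟨p, q⟩, hp, hpq, hq, hc⟩
    obtain ⟨B, hB⟩ := exists_B (τ k) (h0 k) (h1 k) q hq
    obtain ⟨a, b, c, α, p', q', i1, i2, i3, i4, i5, i6, i7, i8, i9, i10, i11, i12⟩ :=
      step p q B hp hpq hq hc hB.1 (max 2 ((18 * B : ℝ) ^ (k + 2)))
    exact ⟨B, a, b, c, α, ⟨(p', q'), i8, i9, by exact_mod_cast (le_max_left _ _).trans i11, i10⟩,
      hB, ⟨i1, i2, i3, i4, i5⟩, i6, i7, (le_max_right _ _).trans i11, i12⟩
  choose B a b c α nxt hk using key
  let s : ℕ → S := fun k => Nat.rec ⟨(1, 2), by norm_num, by norm_num, by norm_num,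
    isCoprime_one_left⟩ (fun k s => nxt k s) k
  exact ⟨fun k => (s k).1.1, fun k => (s k).1.2, fun k => B k (s k), fun k => a k (s k),
    fun k => b k (s k), fun k => c k (s k), fun k => α k (s k), fun k => ⟨(s k).2, hk k (s k)⟩⟩

lemma exists_xi (x α q B : ℕ → ℝ) (hq : ∀ k, 2 ≤ q k) (hB : ∀ k, q k ≤ B k)
    (h1 : ∀ k, 1 / (6 * B k * q k ^ 2) ≤ x k - α k) (h2 : ∀ k, x k - α k ≤ 2 / (B k * q k ^ 2))
    (h3 : ∀ k, (18 * B k) ^ 2 ≤ q (k + 1)) (h4 : ∀ k, |α k - x (k + 1)| ≤ 1 / q (k + 1) ^ 2) :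
    ∃ ξ : ℝ, ∀ k, |ξ - x k| ≤ 3 / (B k * q k ^ 2) ∧ 1 / (12 * B k * q k ^ 2) ≤ |ξ - x k| ∧
      |ξ - α k| ≤ 3 / q (k + 1) ^ 2 := by
  set η : ℕ → ℝ := fun k => 1 / (B k * q k ^ 2) with hη
  set δ : ℕ → ℝ := fun k => 1 / q k ^ 2 with hδ
  have hq0 : ∀ k, 0 < q k := fun k => by linarith [hq k]
  have hB0 : ∀ k, 0 < B k := fun k => by linarith [hq k, hB k]
  have η0 : ∀ k, 0 < η k := fun k => by
    have := hq0 k; have := hB0 k
    simp only [hη]; positivity
  have e1 : ∀ k, 2 * η k ≤ δ k := fun k => by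
    have := hq0 k; have := hB0 k
    simp only [hη, hδ]
    rw [mul_one_div, div_le_div_iff₀ (by positivity) (by positivity)]
    have : 2 ≤ B k := (hq k).trans (hB k)
    nlinarith [sq_pos_of_pos (hq0 k)]
  have e2 : ∀ k, 36 * δ (k + 1) ≤ η k := fun k => by
    have := hq0 k; have := hB0 k; have := hq0 (k + 1)
    simp only [hη, hδ]
    rw [mul_one_div, div_le_div_iff₀ (by positivity) (by positivity)]
    have i1 : ((18 * B k) ^ 2) ^ 2 ≤ q (k + 1) ^ 2 := by gcongr; exact h3 k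
    have i2 : q k ^ 2 ≤ B k ^ 2 := by gcongr; exact hB k
    have i3 : 1 ≤ B k := by linarith [hq k, hB k]
    have i4 : B k * q k ^ 2 ≤ B k ^ 4 := by
      calc B k * q k ^ 2 ≤ B k * B k ^ 2 := by gcongr
        _ = B k ^ 3 := by ring
        _ ≤ B k ^ 4 := pow_le_pow_right₀ i3 (by norm_num)
    nlinarith [pow_pos (hB0 k) 4]
  have h1' : ∀ k, η k / 6 ≤ x k - α k := fun k => by
    refine le_trans (le_of_eq ?_) (h1 k)
    simp only [hη]; rw [div_div]; congr 1; ring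
  have h2' : ∀ k, x k - α k ≤ 2 * η k := fun k => by
    refine (h2 k).trans (le_of_eq ?_)
    simp only [hη]; ring
  have hf : Monotone fun k => x k - 3 * η k := by
    apply monotone_nat_of_le_succ
    intro k
    have := abs_le.1 (h4 k)
    have := h1' k; have := h2' k; have := e1 (k + 1); have := e2 k; have := η0 k
    have := η0 (k + 1)
    simp only [hδ] at *
    linarith
  have hg : Antitone fun k => x k + 3 * η k := by
    apply antitone_nat_of_succ_le
    intro k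
    have := abs_le.1 (h4 k)
    have := h1' k; have := h2' k; have := e1 (k + 1); have := e2 k; have := η0 k
    have := η0 (k + 1)
    simp only [hδ] at *
    linarith
  have hm := Set.mem_iInter.1 (hf.ciSup_mem_iInter_Icc_of_antitone hg
    (fun k => by have := η0 k; simp only; linarith))
  refine ⟨⨆ n, (x n - 3 * η n), fun k => ?_⟩
  set ξ := ⨆ n, (x n - 3 * η n)
  have m1 := hm k
  have m2 := hm (k + 1)
  simp only [Set.mem_Icc] at m1 m2
  have := abs_le.1 (h4 k)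
  have := h1' k; have := h2' k; have := e1 (k + 1); have := e2 k; have := η0 k
  have := η0 (k + 1)
  have r1 : 3 / (B k * q k ^ 2) = 3 * η k := by simp only [hη]; ring
  have r2 : 1 / (12 * B k * q k ^ 2) = η k / 12 := by
    simp only [hη]; rw [div_div]; congr 1; ring
  have r3 : 3 / q (k + 1) ^ 2 = 3 * δ (k + 1) := by simp only [hδ]; ring
  rw [r1, r2, r3]
  simp only [hδ] at *
  refine ⟨abs_le.2 ⟨by linarith, by linarith⟩, le_abs.2 (Or.inr (by linarith)),
    abs_le.2 ⟨by linarith, by linarith⟩⟩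

lemma coeffs (P : ℤ[X]) (hP : P.natDegree ≤ 2) :
    P = C (P.coeff 2) * X ^ 2 + C (P.coeff 1) * X + C (P.coeff 0) :=
  eq_quadratic_of_degree_le_two (natDegree_le_iff_degree_le.1 hP)

lemma unpack (P : ℤ[X]) (hP0 : P ≠ 0) (hP : P.natDegree ≤ 2) (β : ℝ) (hβ : aeval β P = 0) :
    (P.coeff 2 ≠ 0 ∨ P.coeff 1 ≠ 0 ∨ P.coeff 0 ≠ 0) ∧
      P.coeff 2 * β ^ 2 + P.coeff 1 * β + P.coeff 0 = 0 := by
  constructor
  · by_contra h
    push Not at h
    apply hP0
    rw [coeffs P hP, h.1, h.2.1, h.2.2]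
    simp
  · rw [coeffs P hP] at hβ
    simpa using hβ

lemma good_of (ξ w H : ℝ)
    (hξ : ∀ Q : ℤ[X], Q ≠ 0 → Q.natDegree ≤ 2 → aeval ξ Q ≠ 0) (a b c K : ℤ) (α : ℝ)
    (hI : Irreducible (C a * X ^ 2 + C b * X + C c : ℤ[X])) (hα : a * α ^ 2 + b * α + c = 0)
    (ha : |a| ≤ K) (hb : |b| ≤ K) (hc : |c| ≤ K) (hK : (K : ℝ) ≤ H)
    (hd : K * |ξ - α| ≤ H ^ (-w)) :
    ∃ P : Polynomial ℤ, ∃ α : ℝ, ∃ h : ℤ,
      Irreducible P ∧ P.natDegree ≤ 2 ∧ Polynomial.aeval α P = 0 ∧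
      (∀ i : ℕ, |P.coeff i| ≤ h) ∧ (∃ i : ℕ, |P.coeff i| = h) ∧
      (h : ℝ) ≤ H ∧ 0 < |ξ - α| ∧ |ξ - α| ≤ (h : ℝ)⁻¹ * H ^ (-w) := by
  have hroot : aeval α (C a * X ^ 2 + C b * X + C c : ℤ[X]) = 0 := by simpa using hα
  have c2 : (C a * X ^ 2 + C b * X + C c : ℤ[X]).coeff 2 = a := by
    simp only [coeff_add, coeff_C_mul, coeff_X_pow, coeff_X, coeff_C]; norm_num
  have c1 : (C a * X ^ 2 + C b * X + C c : ℤ[X]).coeff 1 = b := by
    simp only [coeff_add, coeff_C_mul, coeff_X_pow, coeff_X, coeff_C]; norm_num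
  have c0 : (C a * X ^ 2 + C b * X + C c : ℤ[X]).coeff 0 = c := by
    simp only [coeff_add, coeff_C_mul, coeff_X_pow, coeff_X, coeff_C]; norm_num
  have hne := (unpack _ hI.ne_zero natDegree_quadratic_le α hroot).1
  rw [c2, c1, c0] at hne
  set h : ℤ := max |a| (max |b| |c|) with hh
  have l2 : |a| ≤ h := le_max_left _ _
  have l1 : |b| ≤ h := (le_max_left _ _).trans (le_max_right _ _)
  have l0 : |c| ≤ h := (le_max_right _ _).trans (le_max_right _ _)
  have hK' : h ≤ K := max_le ha (max_le hb hc)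
  have hpos : 0 < h := by
    rcases hne with h1 | h1 | h1 <;> have := abs_pos.2 h1 <;> omega
  have hR : (0 : ℝ) < h := by exact_mod_cast hpos
  have hKR : (h : ℝ) ≤ K := by exact_mod_cast hK'
  refine ⟨_, α, h, hI, natDegree_quadratic_le, hroot, fun i => ?_, ?_, hKR.trans hK, ?_, ?_⟩
  · rcases i with _ | _ | _ | i
    · rwa [c0]
    · rwa [zero_add, c1]
    · rwa [zero_add, one_add_one_eq_two, c2]
    · rw [coeff_eq_zero_of_natDegree_lt (natDegree_quadratic_le.trans_lt (by omega)), abs_zero]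
      exact hpos.le
  · rcases max_choice |a| (max |b| |c|) with h1 | h1
    · exact ⟨2, by rw [c2, hh, h1]⟩
    · rcases max_choice |b| |c| with h2 | h2
      · exact ⟨1, by rw [c1, hh, h1, h2]⟩
      · exact ⟨0, by rw [c0, hh, h1, h2]⟩
  · rw [abs_pos, sub_ne_zero]
    rintro rfl
    exact hξ _ hI.ne_zero natDegree_quadratic_le hroot
  · rw [← div_eq_inv_mul, le_div_iff₀ hR, mul_comm]
    refine le_trans ?_ hd
    gcongr

lemma irred_lin (p q : ℤ) (hq : q ≠ 0) (hc : IsCoprime p q) :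
    Irreducible (C 0 * X ^ 2 + C q * X + C (-p) : ℤ[X]) := by
  rw [C_0, zero_mul, zero_add]
  apply irreducible_of_degree_eq_one_of_isRelPrime_coeff (degree_linear hq)
  simp only [coeff_add, coeff_C_mul, coeff_X, coeff_C]
  norm_num
  exact hc.neg_left.isRelPrime

end Pool.Agent.MP_03368a_nt

end MrgPart1

-- marker of a merged file
example : 731051 + 423058 = 731051 + 423058 := rfl
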